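import Pool.Agent.W920.HQ.Stm

/-! (COMP) Querying the heavy positions first. -/

set_option autoImplicit false

namespace Pool.Agent.W920.HQ

open Finset Pool.Agent.H572R2

namespace TCOMP

variable {N c : ℕ}

/-- averages after fixing one more coordinate depend only on the strings with that coordinate -/
lemma Ex_ins_congr (S : Finset (Fin N)) (i : Fin N) (a : Fin N → Bool) (b : Bool)
    {f g : (Fin N → Bool) → ℝ} (h : ∀ x, x i = b → f x = g x) :
    Ex (insert i S) (Function.update a i b) f = Ex (insert i S) (Function.update a i b) g := by
  unfold Ex
  apply EE_congr
  intro x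
  apply h
  unfold mix
  simp

end TCOMP

open TCOMP in
theorem t_comp : S_comp := by
  classical
  intro N c r m hm F τ kap eta hτ hkap hlight
  have hdone : ∀ (S : Finset (Fin N)) (a : Fin N → Bool),
      (∀ t < r, ∀ k ∈ Sᶜ, Ex S a (m t k) ≤ τ) →
      ∃ t : RT N c, t.ok ∧ Ex S a t.cost ≤ kap + AA m r S a / τ ∧
        Ex S a (fun x => |F x - t.ev x|) ≤ eta := by
    intro S a h
    obtain ⟨t, h1, h2, h3⟩ := hlight S a h
    have h4 : 0 ≤ AA m r S a / τ := div_nonneg (AA_nonneg hm r S a) hτ.le
    exact ⟨t, h1, by linarith, h3⟩
  suffices H : ∀ (n : ℕ) (S : Finset (Fin N)) (a : Fin N → Bool), (Sᶜ).card = n →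
      ∃ t : RT N c, t.ok ∧ Ex S a t.cost ≤ kap + AA m r S a / τ ∧
        Ex S a (fun x => |F x - t.ev x|) ≤ eta from fun S a => H _ S a rfl
  intro n
  induction n with
  | zero =>
    intro S a hS
    have hS' : Sᶜ = ∅ := Finset.card_eq_zero.1 hS
    exact hdone S a (by intro t _ k hk; rw [hS'] at hk; simp at hk)
  | succ n ih =>
    intro S a hS
    by_cases hlt : ∀ t < r, ∀ k ∈ Sᶜ, Ex S a (m t k) ≤ τ
    · exact hdone S a hlt
    · push Not at hlt
      obtain ⟨t, ht, i, hi, hti⟩ := hlt
      have hi' : i ∉ S := by simpa using hi
      have hc : ((insert i S)ᶜ).card = n := by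
        have : (insert i S)ᶜ = (Sᶜ).erase i := by
          ext k; simp
        rw [this, Finset.card_erase_of_mem hi, hS]; rfl
      obtain ⟨t1, o1, c1, e1⟩ := ih (insert i S) (Function.update a i true) hc
      obtain ⟨t0, o0, c0, e0⟩ := ih (insert i S) (Function.update a i false) hc
      have hA := AA_split' hm r hi' a ht hti.le
      refine ⟨RT.query i (fun b => if b then t1 else t0), ?_, ?_, ?_⟩
      · intro b
        cases b
        · simpa using o0
        · simpa using o1
      · rw [Ex_split hi' a]
        have k1 : Ex (insert i S) (Function.update a i true)
            (RT.cost (RT.query i (fun b => if b then t1 else t0))) =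
            1 + Ex (insert i S) (Function.update a i true) t1.cost := by
          rw [Ex_ins_congr S i a true (g := fun x => 1 + t1.cost x) (by
            intro x hx
            simp [RT.cost, hx])]
          unfold Ex
          rw [EE_add, EE_const]
        have k0 : Ex (insert i S) (Function.update a i false)
            (RT.cost (RT.query i (fun b => if b then t1 else t0))) =
            1 + Ex (insert i S) (Function.update a i false) t0.cost := by
          rw [Ex_ins_congr S i a false (g := fun x => 1 + t0.cost x) (by
            intro x hx
            simp [RT.cost, hx])]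
          unfold Ex
          rw [EE_add, EE_const]
        rw [k1, k0]
        have h5 : (AA m r (insert i S) (Function.update a i true) / τ +
            AA m r (insert i S) (Function.update a i false) / τ) / 2 ≤ AA m r S a / τ - 1 := by
          have h6 := div_le_div_of_nonneg_right hA hτ.le
          rw [sub_div, div_self hτ.ne'] at h6
          refine le_trans (le_of_eq ?_) h6
          ring
        linarith
      · rw [Ex_split hi' a]
        have k1 : Ex (insert i S) (Function.update a i true)
            (fun x => |F x - RT.ev (RT.query i (fun b => if b then t1 else t0)) x|) =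
            Ex (insert i S) (Function.update a i true) (fun x => |F x - t1.ev x|) :=
          Ex_ins_congr S i a true (by
            intro x hx
            simp [RT.ev, hx])
        have k0 : Ex (insert i S) (Function.update a i false)
            (fun x => |F x - RT.ev (RT.query i (fun b => if b then t1 else t0)) x|) =
            Ex (insert i S) (Function.update a i false) (fun x => |F x - t0.ev x|) :=
          Ex_ins_congr S i a false (by
            intro x hx
            simp [RT.ev, hx])
        rw [k1, k0]
        linarith

end Pool.Agent.W920.HQ
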