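import Pool.Agent.W920.HQ.Stm

set_option autoImplicit false

namespace Pool.Agent.W920.HQ

open Finset Pool.Agent.H572R2

namespace TFIN1

theorem diag_mem {N T q m : ℕ} (W : Fin T → Finset (Fin N)) (x : Fin N → Bool) (k : Fin T) :
    Matrix.diagonal (fun b : Bas N q m =>
          ∏ j : Fin q, Option.elim (b.1 j) (1 : ℂ)
            (fun i => if i ∈ W k ∧ x i then -1 else 1)) ∈ Matrix.unitaryGroup (Bas N q m) ℂ := by
  rw [Matrix.mem_unitaryGroup_iff, Matrix.star_eq_conjTranspose, Matrix.diagonal_conjTranspose,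
    Matrix.diagonal_mul_diagonal, ← Matrix.diagonal_one]
  congr 1
  funext b
  have hn : ‖∏ j : Fin q, Option.elim (b.1 j) (1 : ℂ)
            (fun i => if i ∈ W k ∧ x i then -1 else 1)‖ = 1 := by
    rw [norm_prod]
    apply Finset.prod_eq_one
    intro j _
    cases h : b.1 j with
    | none => simp
    | some i =>
      simp only [Option.elim]
      split_ifs <;> simp
  rw [Pi.star_apply]
  have h2 := Complex.mul_conj' (∏ j : Fin q, Option.elim (b.1 j) (1 : ℂ)
            (fun i => if i ∈ W k ∧ x i then -1 else 1))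
  rw [hn] at h2
  simpa using h2

theorem amp_sum {N T q m : ℕ} (W : Fin T → Finset (Fin N))
    (U : Fin (T + 1) → Matrix.unitaryGroup (Bas N q m) ℂ) (s₀ : Bas N q m)
    (x : Fin N → Bool) : ∑ s, ‖amp W U s₀ x s‖ ^ 2 = 1 := by
  set M : Matrix (Bas N q m) (Bas N q m) ℂ := ((List.ofFn (fun k : Fin T =>
      (U k.succ).1 *
        Matrix.diagonal (fun b : Bas N q m =>
          ∏ j : Fin q, Option.elim (b.1 j) (1 : ℂ)
            (fun i => if i ∈ W k ∧ x i then -1 else 1)))).reverse.prod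
      * (U 0).1) with hM
  have hMu : M ∈ Matrix.unitaryGroup (Bas N q m) ℂ := by
    rw [hM]
    apply mul_mem _ (U 0).2
    apply list_prod_mem
    intro A hA
    rw [List.mem_reverse, List.mem_ofFn] at hA
    obtain ⟨k, rfl⟩ := hA
    exact mul_mem (U k.succ).2 (diag_mem W x k)
  have h1 : star M * M = 1 := Matrix.mem_unitaryGroup_iff'.1 hMu
  have h2 : (star M * M) s₀ s₀ = 1 := by rw [h1, Matrix.one_apply_eq]
  rw [Matrix.mul_apply] at h2
  have h3 : ∀ s, (star M) s₀ s * M s s₀ = ((‖amp W U s₀ x s‖ ^ 2 : ℝ) : ℂ) := by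
    intro s
    have h4 : amp W U s₀ x s = M s s₀ := rfl
    rw [h4, Matrix.star_apply]
    have := Complex.conj_mul' (M s s₀)
    rw [Complex.ofReal_pow]
    exact this
  simp only [h3] at h2
  rw [← Complex.ofReal_sum] at h2
  exact_mod_cast h2

theorem prob_mem {N T q r c : ℕ} (P : Prog N T q r c) (x : Fin N → Bool) :
    0 ≤ P.prob x ∧ P.prob x ≤ 1 := by
  induction P with
  | halt b => cases b <;> simp [Prog.prob]
  | call m W hW U s₀ out next ih =>
    unfold Prog.prob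
    have hw : ∀ j : Fin c, 0 ≤ ∑ s ∈ Finset.univ.filter (fun s => out s = j), ‖amp W U s₀ x s‖ ^ 2 :=
      fun j => Finset.sum_nonneg (fun s _ => by positivity)
    have hs : ∑ j : Fin c, ∑ s ∈ Finset.univ.filter (fun s => out s = j), ‖amp W U s₀ x s‖ ^ 2 = 1 := by
      rw [Finset.sum_fiberwise]
      exact amp_sum W U s₀ x
    constructor
    · exact Finset.sum_nonneg (fun j _ => mul_nonneg (hw j) (ih j).1)
    · rw [← hs]
      apply Finset.sum_le_sum
      intro j _
      exact mul_le_of_le_one_right (hw j) (ih j).2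

end TFIN1

theorem t_fin1 (h1 : S_fixl) (h2 : S_sim) : S_fin1 := by
  intro N T q r c L hT hq hr hc hL P hPL V hV0 hV
  have hp0 : ∀ x, 0 ≤ P.prob x := fun x => (TFIN1.prob_mem P x).1
  have hp1 : ∀ x, P.prob x ≤ 1 := fun x => (TFIN1.prob_mem P x).2
  set p : (Fin N → Bool) → ℝ := fun x => P.prob x with hp
  set mu : ℝ := EE p with hmu
  have hmu0 : 0 ≤ mu := EE_nonneg hp0
  have hmu1 : mu ≤ 1 := (EE_mono hp1).trans (le_of_eq (EE_const 1))
  have hdif : ∀ x, |p x - mu| ≤ 1 := by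
    intro x
    have a0 := hp0 x
    have a1 := hp1 x
    rw [abs_le]
    constructor
    · show -1 ≤ P.prob x - mu
      linarith
    · show P.prob x - mu ≤ 1
      linarith
  have hV1 : V ≤ 1 := by
    rw [hV]
    refine (EE_mono (g := fun _ => (1 : ℝ)) ?_).trans (le_of_eq (EE_const 1))
    intro x
    have := hdif x
    have h3 : |p x - mu| ^ 2 ≤ 1 := by
      have := abs_nonneg (p x - mu)
      nlinarith
    rw [sq_abs] at h3
    exact h3
  have hT1 : (1 : ℝ) ≤ T := by exact_mod_cast hT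
  have hq1 : (1 : ℝ) ≤ q := by exact_mod_cast hq
  have hr1 : (1 : ℝ) ≤ r := by exact_mod_cast hr
  have hc1 : (1 : ℝ) ≤ c := by exact_mod_cast hc
  have hL1 : (1 : ℝ) ≤ L := by exact_mod_cast hL
  set K : ℝ := 320 * (r : ℝ) ^ 4 * (T : ℝ) ^ 2 * q with hK
  have hK1 : 1 ≤ K := by
    have e1 : (1 : ℝ) ≤ (r : ℝ) ^ 4 := one_le_pow₀ hr1
    have e2 : (1 : ℝ) ≤ (T : ℝ) ^ 2 := one_le_pow₀ hT1
    calc (1 : ℝ) ≤ 320 * 1 * 1 * 1 := by norm_num
      _ ≤ _ := by rw [hK]; gcongr
  have hK0 : 0 < K := by linarith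
  have hKr : 1 ≤ K ^ r := one_le_pow₀ hK1
  set D : ℝ := 144 * (r : ℝ) * (T : ℝ) ^ 2 * (q : ℝ) ^ 2 * K ^ r with hD
  have hD1 : 1 ≤ D := by
    have e2 : (1 : ℝ) ≤ (T : ℝ) ^ 2 := one_le_pow₀ hT1
    have e3 : (1 : ℝ) ≤ (q : ℝ) ^ 2 := one_le_pow₀ hq1
    calc (1 : ℝ) ≤ 144 * 1 * 1 * 1 * 1 := by norm_num
      _ ≤ D := by rw [hD]; gcongr
  have hD0 : 0 < D := by linarith
  have hT0 : (0 : ℝ) < T := by linarith
  have hq0 : (0 : ℝ) < q := by linarith
  have hr0 : (0 : ℝ) < r := by linarith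
  have hc0 : (0 : ℝ) < c := by linarith
  have hL0 : (0 : ℝ) < L := by linarith
  set e : ℝ := V / (4 * L * c) with he
  have he0 : 0 < e := by rw [he]; positivity
  have he1 : e ≤ 1 := by
    rw [he, div_le_one (by positivity)]
    calc V ≤ 1 := hV1
      _ ≤ 4 * 1 * 1 := by norm_num
      _ ≤ 4 * (L : ℝ) * c := by gcongr
  set b : ℝ := e ^ 2 / D with hb
  have hb0 : 0 < b := by rw [hb]; positivity
  have hb1 : b ≤ 1 := by
    rw [hb, div_le_one hD0]
    have : e ^ 2 ≤ 1 := by nlinarith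
    linarith
  obtain ⟨t, htok, htc, hte⟩ := h2 N T q r c hT hq hr b hb0 hb1 P ∅ (fun _ => true)
  rw [Ex_empty] at htc hte
  have hDb : Real.sqrt (144 * (r : ℝ) * (T : ℝ) ^ 2 * (q : ℝ) ^ 2 * (320 * (r : ℝ) ^ 4 * (T : ℝ) ^ 2 * q) ^ r * b) = e := by
    have : 144 * (r : ℝ) * (T : ℝ) ^ 2 * (q : ℝ) ^ 2 * (320 * (r : ℝ) ^ 4 * (T : ℝ) ^ 2 * q) ^ r * b = e ^ 2 := by
      rw [← hK, ← hD, hb]
      field_simp
    rw [this]
    exact Real.sqrt_sq he0.le
  rw [hDb] at hte
  have hcalls : (P.calls : ℝ) ≤ L := by exact_mod_cast hPL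
  have herr : EE (fun x => |p x - t.ev x|) ≤ V / 4 := by
    refine hte.trans ?_
    calc (P.calls : ℝ) * (c * e) ≤ L * (c * e) := by gcongr
      _ = V / 4 := by rw [he]; field_simp
  set Ct : ℝ := L * (T * q / b ^ 2) with hCt
  have hCt0 : 0 < Ct := by rw [hCt]; positivity
  have hcost : EE t.cost ≤ Ct := by
    refine htc.trans ?_
    rw [hCt]
    gcongr
  have hbound : 4 * Ct / V = 21233664 * (L : ℝ) ^ 5 * (c : ℝ) ^ 4 * (r : ℝ) ^ 2 * ((T : ℝ) * q) ^ 5
        * (320 * (r : ℝ) ^ 4 * (T : ℝ) ^ 2 * q) ^ (2 * r) / V ^ 5 := by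
    rw [← hK, hCt, hb, he, hD, pow_mul' K 2 r]
    have hKr0 : 0 < K ^ r := by linarith
    field_simp
    ring
  by_contra hcon
  push Not at hcon
  set l : ℝ := V / (4 * Ct) with hl
  have hl0 : 0 < l := by rw [hl]; positivity
  have hdev : ∀ (S : Finset (Fin N)) (a : Fin N → Bool), Ex S a p - mu ≤ V / 4 + l * S.card := by
    intro S a
    by_cases hS : (S.card : ℝ) ≤ 4 * Ct / V
    · have h3 := hcon S a (by rw [hbound] at hS; exact hS)
      have h4 : 0 ≤ l * (S.card : ℝ) := by positivity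
      have h5 : Ex S a p - mu < V / 4 := h3
      linarith
    · rw [not_le] at hS
      have h3 : 1 ≤ l * (S.card : ℝ) := by
        have h4 : l * (4 * Ct / V) = 1 := by
          rw [hl]; field_simp
        have h5 : l * (4 * Ct / V) ≤ l * (S.card : ℝ) := mul_le_mul_of_nonneg_left hS.le hl0.le
        linarith
      have h6 : Ex S a p ≤ 1 := by
        unfold Ex
        refine (EE_mono (g := fun _ => (1 : ℝ)) ?_).trans (le_of_eq (EE_const 1))
        intro x
        exact hp1 _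
      linarith
  have hfix := h1 N c p mu (V / 4) l (by positivity) hl0.le hdev t htok ∅ (fun _ => true)
  rw [Ex_empty, Ex_empty, Finset.card_empty] at hfix
  have hup : EE (fun x => (p x - mu) * t.ev x) ≤ V / 2 := by
    have h3 : l * Ct = V / 4 := by rw [hl]; field_simp
    have h4 : l * EE t.cost ≤ l * Ct := mul_le_mul_of_nonneg_left hcost hl0.le
    have h5 : l * (((0 : ℕ) : ℝ) + EE t.cost) = l * EE t.cost := by simp
    rw [h5] at hfix
    linarith
  have hlow : 3 * V / 4 ≤ EE (fun x => (p x - mu) * t.ev x) := by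
    have h3 : EE (fun x => (p x - mu) * p x) = V := by
      have h4 : ∀ x, (p x - mu) * p x = (p x - mu) ^ 2 + mu * (p x - mu) := by intro x; ring
      rw [EE_congr h4, EE_add, EE_mul, EE_sub, EE_const, ← hmu, sub_self, mul_zero, add_zero]
      exact hV.symm
    have h5 : EE (fun x => (p x - mu) * p x) - EE (fun x => (p x - mu) * t.ev x) ≤ V / 4 := by
      rw [← EE_sub]
      refine le_trans (EE_mono ?_) herr
      intro x
      have h6 : (p x - mu) * p x - (p x - mu) * t.ev x = (p x - mu) * (p x - t.ev x) := by ring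
      rw [h6]
      refine (le_abs_self _).trans ?_
      rw [abs_mul]
      exact mul_le_of_le_one_left (abs_nonneg _) (hdif x)
    linarith
  linarith

end Pool.Agent.W920.HQ

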