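import Pool.Agent.W920.HQ.Stm

/-!
# Bit fixing for randomised decision trees
-/

set_option autoImplicit false

namespace Pool.Agent.W920.HQ

open Finset Pool.Agent.H572R2

namespace TFIXL

variable {N c : ℕ}

theorem ex_congr (S : Finset (Fin N)) (a : Fin N → Bool) (F F' : (Fin N → Bool) → ℝ)
    (h : ∀ x, F (mix S a x) = F' (mix S a x)) : Ex S a F = Ex S a F' := EE_congr h

theorem ex_lin (S : Finset (Fin N)) (a : Fin N → Bool) (w : Fin c → ℝ)
    (F : Fin c → (Fin N → Bool) → ℝ) :
    Ex S a (fun x => ∑ j, w j * F j x) = ∑ j, w j * Ex S a (F j) := by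
  unfold Ex
  rw [EE_sum]
  refine Finset.sum_congr rfl fun j _ => ?_
  rw [EE_mul]

theorem mix_mem (S : Finset (Fin N)) (a x : Fin N → Bool) (i : Fin N) (hi : i ∈ S) :
    mix S a x i = a i := if_pos hi

theorem q_ev (f : (Fin N → Bool) → ℝ) (mu : ℝ) (S : Finset (Fin N)) (a : Fin N → Bool)
    (i : Fin N) (hi : i ∈ S) (t : Bool → RT N c) :
    Ex S a (fun x => (f x - mu) * (RT.query i t).ev x) =
      Ex S a (fun x => (f x - mu) * (t (a i)).ev x) := by
  refine ex_congr S a _ _ fun x => ?_
  simp only [RT.ev]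
  rw [mix_mem S a x i hi]

theorem q_cost (S : Finset (Fin N)) (a : Fin N → Bool)
    (i : Fin N) (hi : i ∈ S) (t : Bool → RT N c) :
    Ex S a (RT.query i t).cost = 1 + Ex S a (t (a i)).cost := by
  have h1 : Ex S a (RT.query i t).cost = Ex S a (fun x => 1 + (t (a i)).cost x) := by
    refine ex_congr S a _ _ fun x => ?_
    simp only [RT.cost]
    rw [mix_mem S a x i hi]
  rw [h1]
  unfold Ex
  rw [EE_add, EE_const]

end TFIXL

open TFIXL in
theorem t_fixl : S_fixl := by
  intro N c f mu del l hdel hl H t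
  induction t with
  | leaf v =>
    intro ht S a
    obtain ⟨h0, h1⟩ : 0 ≤ v ∧ v ≤ 1 := ht
    have e1 : Ex S a (fun x => (f x - mu) * (RT.leaf v : RT N c).ev x) = v * (Ex S a f - mu) := by
      have e2 : Ex S a (fun x => (f x - mu) * (RT.leaf v : RT N c).ev x) =
          Ex S a (fun x => v * (f x - mu)) := ex_congr S a _ _ fun x => mul_comm _ _
      rw [e2]
      unfold Ex
      rw [EE_mul, EE_sub, EE_const]
    have e3 : Ex S a (RT.leaf v : RT N c).cost = 0 := by
      have : Ex S a (RT.leaf v : RT N c).cost = Ex S a (fun _ => 0) := rfl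
      rw [this]
      unfold Ex
      rw [EE_const]
    rw [e1, e3, add_zero]
    have h2 := H S a
    have h3 : 0 ≤ del + l * S.card := add_nonneg hdel (mul_nonneg hl (Nat.cast_nonneg _))
    nlinarith
  | query i t ih =>
    intro ht S a
    have ht' : ∀ b, (t b).ok := ht
    by_cases hi : i ∈ S
    · rw [q_ev f mu S a i hi t, q_cost S a i hi t]
      have h1 := ih (a i) (ht' (a i)) S a
      nlinarith
    · rw [Ex_split hi a, Ex_split hi a]
      have hm : i ∈ insert i S := Finset.mem_insert_self i S
      rw [q_ev f mu _ _ i hm t, q_ev f mu _ _ i hm t, q_cost _ _ i hm t, q_cost _ _ i hm t]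
      rw [Function.update_self, Function.update_self]
      have h1 := ih true (ht' true) (insert i S) (Function.update a i true)
      have h2 := ih false (ht' false) (insert i S) (Function.update a i false)
      rw [Finset.card_insert_of_notMem hi] at h1 h2
      push_cast at h1 h2
      nlinarith
  | flip w t ih =>
    intro ht S a
    obtain ⟨hw, hw1, ht'⟩ : (∀ j, 0 ≤ w j) ∧ ∑ j, w j = 1 ∧ ∀ j, (t j).ok := ht
    have e1 : Ex S a (fun x => (f x - mu) * (RT.flip w t).ev x) =
        ∑ j, w j * Ex S a (fun x => (f x - mu) * (t j).ev x) := by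
      rw [← ex_lin]
      refine ex_congr S a _ _ fun x => ?_
      simp only [RT.ev]
      rw [Finset.mul_sum]
      refine Finset.sum_congr rfl fun j _ => ?_
      ring
    have e2 : Ex S a (RT.flip w t).cost = ∑ j, w j * Ex S a (t j).cost := by
      rw [← ex_lin]
      rfl
    rw [e1, e2]
    calc ∑ j, w j * Ex S a (fun x => (f x - mu) * (t j).ev x)
        ≤ ∑ j, w j * (del + l * (S.card + Ex S a (t j).cost)) :=
          Finset.sum_le_sum fun j _ => mul_le_mul_of_nonneg_left (ih j (ht' j) S a) (hw j)
      _ = ∑ j, (w j * (del + l * S.card) + l * (w j * Ex S a (t j).cost)) :=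
          Finset.sum_congr rfl fun j _ => by ring
      _ = del + l * (S.card + ∑ j, w j * Ex S a (t j).cost) := by
          rw [Finset.sum_add_distrib, ← Finset.sum_mul, ← Finset.mul_sum, hw1]
          ring

end Pool.Agent.W920.HQ
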