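import Pool.Agent.W920.HQ.Stm

set_option autoImplicit false

namespace Pool.Agent.W920.HQ

open Finset Pool.Agent.H572R2

namespace TFLIP

variable {N : ℕ}

lemma Ex_sumw {c : ℕ} (S : Finset (Fin N)) (a : Fin N → Bool) (w : Fin c → ℝ)
    (f : Fin c → (Fin N → Bool) → ℝ) :
    Ex S a (fun x => ∑ j, w j * f j x) = ∑ j, w j * Ex S a (f j) := by
  unfold Ex
  rw [EE_sum]
  apply Finset.sum_congr rfl
  intro j _
  exact EE_mul (w j) (fun x => f j (mix S a x))

lemma Ex_mono (S : Finset (Fin N)) (a : Fin N → Bool) {f g : (Fin N → Bool) → ℝ}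
    (h : ∀ x, f x ≤ g x) : Ex S a f ≤ Ex S a g := EE_mono fun _ => h _

lemma Ex_add (S : Finset (Fin N)) (a : Fin N → Bool) (f g : (Fin N → Bool) → ℝ) :
    Ex S a (fun x => f x + g x) = Ex S a f + Ex S a g := EE_add _ _

lemma Ex_sum {c : ℕ} (S : Finset (Fin N)) (a : Fin N → Bool) (f : Fin c → (Fin N → Bool) → ℝ) :
    Ex S a (fun x => ∑ j, f j x) = ∑ j, Ex S a (f j) := by
  unfold Ex
  rw [EE_sum]

lemma Ex_abs_le (S : Finset (Fin N)) (a : Fin N → Bool) (f : (Fin N → Bool) → ℝ) (eps : ℝ)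
    (he : 0 ≤ eps) (h : Ex S a (fun x => (f x) ^ 2) - (Ex S a f) ^ 2 ≤ eps ^ 2) :
    Ex S a (fun x => |f x - Ex S a f|) ≤ eps := by
  set w : ℝ := Ex S a f with hw
  have h1 := EE_cs (fun x => |f (mix S a x) - w|) (fun _ : Fin N → Bool => (1 : ℝ))
  have h2 : EE (fun _ : Fin N → Bool => (1 : ℝ) ^ 2) = 1 := by
    rw [one_pow, EE_const]
  have h3 : EE (fun x => |f (mix S a x) - w| * (1 : ℝ))
      = Ex S a (fun x => |f x - w|) := by
    unfold Ex
    apply EE_congr
    intro x
    rw [mul_one]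
  have h4 : EE (fun x => |f (mix S a x) - w| ^ 2)
      = Ex S a (fun x => (f x) ^ 2) - w ^ 2 := by
    have e1 : EE (fun x => |f (mix S a x) - w| ^ 2)
        = EE (fun x => ((f (mix S a x)) ^ 2 - 2 * w * f (mix S a x)) + w ^ 2) := by
      apply EE_congr
      intro x
      rw [sq_abs]
      ring
    rw [e1, EE_add, EE_sub, EE_mul, EE_const]
    have e2 : EE (fun x => f (mix S a x)) = w := rfl
    have e3 : EE (fun x => (f (mix S a x)) ^ 2) = Ex S a (fun x => (f x) ^ 2) := rfl
    rw [e2, e3]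
    ring
  rw [h3, h2, h4, mul_one] at h1
  exact abs_le_of_sq_le_sq' (h1.trans h) he |>.2

end TFLIP

open TFLIP in
theorem t_flip : S_flip := by
  intro N c S a P p t eps kap eta he hP hPs hp0 hp1 hvar hok hcost herr
  set w : Fin c → ℝ := fun j => Ex S a (P j) with hw
  have hw0 : ∀ j, 0 ≤ w j := fun j => EE_nonneg fun x => hP j _
  have hw1 : ∑ j, w j = 1 := by
    rw [hw, ← Ex_sum S a P]
    have : (fun x => ∑ j, P j x) = fun _ : Fin N → Bool => (1 : ℝ) := by
      funext x; exact hPs x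
    rw [this]
    exact EE_const 1
  refine ⟨RT.flip w t, ⟨hw0, hw1, hok⟩, ?_, ?_⟩
  · have h1 : Ex S a (RT.flip w t).cost = ∑ j, w j * Ex S a (t j).cost := by
      have : (RT.flip w t).cost = fun x => ∑ j, w j * (t j).cost x := by
        funext x; rfl
      rw [this, Ex_sumw]
    rw [h1]
    calc ∑ j, w j * Ex S a (t j).cost ≤ ∑ j, w j * kap :=
          Finset.sum_le_sum fun j _ => mul_le_mul_of_nonneg_left (hcost j) (hw0 j)
      _ = kap := by rw [← Finset.sum_mul, hw1, one_mul]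
  · have h1 : ∀ x, |(∑ j, P j x * p j x) - (RT.flip w t).ev x|
        ≤ (∑ j, |P j x - w j|) + ∑ j, w j * |p j x - (t j).ev x| := by
      intro x
      have e1 : (∑ j, P j x * p j x) - (RT.flip w t).ev x
          = ∑ j, ((P j x - w j) * p j x + w j * (p j x - (t j).ev x)) := by
        show (∑ j, P j x * p j x) - (∑ j, w j * (t j).ev x) = _
        rw [← Finset.sum_sub_distrib]
        apply Finset.sum_congr rfl
        intro j _
        ring
      rw [e1, ← Finset.sum_add_distrib]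
      refine (Finset.abs_sum_le_sum_abs _ _).trans ?_
      apply Finset.sum_le_sum
      intro j _
      refine (abs_add_le _ _).trans ?_
      rw [abs_mul, abs_mul, abs_of_nonneg (hw0 j), abs_of_nonneg (hp0 j x)]
      have := mul_le_mul_of_nonneg_left (hp1 j x) (abs_nonneg (P j x - w j))
      linarith
    refine (Ex_mono S a h1).trans ?_
    rw [Ex_add, Ex_sum, Ex_sumw]
    have h2 : ∑ j, Ex S a (fun x => |P j x - w j|) ≤ c * eps := by
      calc ∑ j, Ex S a (fun x => |P j x - w j|) ≤ ∑ _j : Fin c, eps :=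
            Finset.sum_le_sum fun j _ => Ex_abs_le S a (P j) eps he (hvar j)
        _ = c * eps := by simp
    have h3 : ∑ j, w j * Ex S a (fun x => |p j x - (t j).ev x|) ≤ eta := by
      calc ∑ j, w j * Ex S a (fun x => |p j x - (t j).ev x|) ≤ ∑ j, w j * eta :=
            Finset.sum_le_sum fun j _ => mul_le_mul_of_nonneg_left (herr j) (hw0 j)
        _ = eta := by rw [← Finset.sum_mul, hw1, one_mul]
    linarith

end Pool.Agent.W920.HQ

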