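import Pool.Agent.W920.HQ.Stm

set_option autoImplicit false

namespace Pool.Agent.W920.HQ

open Finset Matrix Pool.Agent.H572R2

namespace TSIM

variable {N T q r c : ℕ}

/-- The outcome probabilities of a call. -/
noncomputable def oc {m : ℕ} (W : Fin T → Finset (Fin N))
    (U : Fin (T + 1) → Matrix.unitaryGroup (Bas N q m) ℂ) (s₀ : Bas N q m)
    (out : Bas N q m → Fin c) (j : Fin c) (x : Fin N → Bool) : ℝ :=
  ∑ s ∈ Finset.univ.filter (fun s => out s = j), ‖amp W U s₀ x s‖ ^ 2

lemma oc_eq {m : ℕ} (W : Fin T → Finset (Fin N))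
    (U : Fin (T + 1) → Matrix.unitaryGroup (Bas N q m) ℂ) (s₀ : Bas N q m)
    (out : Bas N q m → Fin c) (j : Fin c) :
    (ModelR.evo W U s₀).pr (Finset.univ.filter (fun s => out s = j)) T = oc W U s₀ out j :=
  ModelR.pr_eq W U s₀ _ _ (fun _ => rfl)

lemma oc_nonneg {m : ℕ} (W : Fin T → Finset (Fin N))
    (U : Fin (T + 1) → Matrix.unitaryGroup (Bas N q m) ℂ) (s₀ : Bas N q m)
    (out : Bas N q m → Fin c) (j : Fin c) (x : Fin N → Bool) : 0 ≤ oc W U s₀ out j x :=
  Finset.sum_nonneg fun s _ => by positivity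

lemma oc_sum {m : ℕ} (W : Fin T → Finset (Fin N))
    (U : Fin (T + 1) → Matrix.unitaryGroup (Bas N q m) ℂ) (s₀ : Bas N q m)
    (out : Bas N q m → Fin c) (x : Fin N → Bool) : ∑ j, oc W U s₀ out j x = 1 := by
  have h1 : (ModelR.evo W U s₀).pr Finset.univ T = fun x => ∑ s, ‖amp W U s₀ x s‖ ^ 2 :=
    ModelR.pr_eq W U s₀ _ _ (fun _ => rfl)
  have h2 := (ModelR.evo W U s₀).nst T x
  have h3 : (ModelR.evo W U s₀).pr Finset.univ T x = 1 := h2
  rw [h1] at h3
  simp only at h3
  rw [← h3]
  unfold oc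
  exact Finset.sum_fiberwise Finset.univ out (fun s => ‖amp W U s₀ x s‖ ^ 2)

lemma prob_call {m : ℕ} (W : Fin T → Finset (Fin N))
    (hW : ∀ i : Fin N, (Finset.univ.filter (fun k : Fin T => i ∈ W k)).card ≤ r)
    (U : Fin (T + 1) → Matrix.unitaryGroup (Bas N q m) ℂ) (s₀ : Bas N q m)
    (out : Bas N q m → Fin c) (next : Fin c → Prog N T q r c) (x : Fin N → Bool) :
    (Prog.call m W hW U s₀ out next).prob x = ∑ j, oc W U s₀ out j x * (next j).prob x := rfl

/-- Probabilities lie between `0` and `1`. -/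
lemma prob_mem (P : Prog N T q r c) (x : Fin N → Bool) : 0 ≤ P.prob x ∧ P.prob x ≤ 1 := by
  induction P with
  | halt b => cases b <;> simp [Prog.prob]
  | call m W hW U s₀ out next ih =>
    rw [prob_call]
    refine ⟨Finset.sum_nonneg fun j _ => mul_nonneg (oc_nonneg W U s₀ out j x) (ih j).1, ?_⟩
    rw [← oc_sum W U s₀ out x]
    exact Finset.sum_le_sum fun j _ => mul_le_of_le_one_right (oc_nonneg W U s₀ out j x) (ih j).2

lemma AA_le (W : ℕ → Finset (Fin N)) (qq : ℝ) (m : ℕ → Fin N → (Fin N → Bool) → ℝ)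
    (G : GR W qq m) (T : ℕ) (S : Finset (Fin N)) (a : Fin N → Bool) :
    AA m T S a ≤ T * qq := by
  unfold AA
  calc ∑ t ∈ Finset.range T, ∑ k ∈ Sᶜ, Ex S a (m t k)
      ≤ ∑ t ∈ Finset.range T, qq := by
        apply Finset.sum_le_sum; intro t _
        calc ∑ k ∈ Sᶜ, Ex S a (m t k) ≤ ∑ k, Ex S a (m t k) :=
              Finset.sum_le_sum_of_subset_of_nonneg (Finset.subset_univ _)
                fun k _ _ => EE_nonneg fun x => G.nonneg t k _
          _ = EE (fun x => ∑ k, m t k (mix S a x)) := by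
              rw [EE_sum]
              rfl
          _ ≤ EE (fun _ => qq) := EE_mono fun x => G.sum_le t _
          _ = qq := EE_const qq
    _ = T * qq := by rw [Finset.sum_const, Finset.card_range, nsmul_eq_mul]

end TSIM

open TSIM in
theorem t_sim (h1 : S_comp) (h2 : S_flip) : S_sim := by
  intro N T q r c hT hq hr b hb hb1 P
  have hqR : (1 : ℝ) ≤ q := by exact_mod_cast hq
  set D : ℝ := 144 * r * T ^ 2 * q ^ 2 * (320 * r ^ 4 * T ^ 2 * q) ^ r * b with hD
  have hD0 : 0 ≤ D := by positivity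
  set k0 : ℝ := T * q / b ^ 2 with hk0
  have hk00 : 0 ≤ k0 := by positivity
  set e0 : ℝ := c * Real.sqrt D with he0
  have he00 : 0 ≤ e0 := by positivity
  induction P with
  | halt bb =>
    intro S a
    refine ⟨RT.leaf (if bb then 1 else 0), ?_, ?_, ?_⟩
    · cases bb <;> simp [RT.ok]
    · simp only [RT.cost, Prog.calls, Nat.cast_zero, zero_mul]
      exact le_of_eq (EE_const 0)
    · simp only [RT.ev, Prog.prob, sub_self, abs_zero, Prog.calls, Nat.cast_zero, zero_mul]
      exact le_of_eq (EE_const 0)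
  | call m W hW U s₀ out next ih =>
    intro S a
    set n0 : ℕ := Finset.univ.sup (fun j => (next j).calls) with hn0
    have hn : ∀ j, (next j).calls ≤ n0 := fun j =>
      Finset.le_sup (f := fun j => (next j).calls) (Finset.mem_univ j)
    have hcalls : ((Prog.call m W hW U s₀ out next).calls : ℝ) = n0 + 1 := by
      show ((Finset.univ.sup (fun j => (next j).calls) + 1 : ℕ) : ℝ) = _
      rw [← hn0]; push_cast; ring
    have G := (ModelR.evo W U s₀).gr
    have hrd : ∀ i, (reads (ModelR.padW W) T i).card ≤ r := fun i => ModelR.reads_card W r hW i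
    obtain ⟨t, ht1, ht2, ht3⟩ := h1 N c T _ G.nonneg
      (fun x => (Prog.call m W hW U s₀ out next).prob x) (b ^ 2) (n0 * k0) (e0 + n0 * e0)
      (by positivity) (by positivity) (by
        intro S a hl
        choose tt ht1 ht2 ht3 using fun j => ih j S a
        have hcast : ∀ j, ((next j).calls : ℝ) ≤ n0 := fun j => by exact_mod_cast hn j
        obtain ⟨u, hu1, hu2, hu3⟩ := h2 N c S a (fun j x => oc W U s₀ out j x)
          (fun j x => (next j).prob x) tt (Real.sqrt D) (n0 * k0) (n0 * e0) (Real.sqrt_nonneg _)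
          (fun j x => oc_nonneg W U s₀ out j x) (fun x => oc_sum W U s₀ out x)
          (fun j x => (prob_mem (next j) x).1) (fun j x => (prob_mem (next j) x).2)
          (fun j => by
            rw [Real.sq_sqrt hD0]
            have h3 := light_var G hqR T hT r hr hrd b hb hb1
              ((ModelR.evo W U s₀).pr (Finset.univ.filter (fun s => out s = j)) T)
              ((ModelR.evo W U s₀).pr_nonneg _ T) ((ModelR.evo W U s₀).pr_le_one _ T)
              ((ModelR.evo W U s₀).grd _ T) S a hl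
            rw [oc_eq] at h3
            exact h3)
          ht1
          (fun j => (ht2 j).trans (mul_le_mul_of_nonneg_right (hcast j) hk00))
          (fun j => (ht3 j).trans (mul_le_mul_of_nonneg_right (hcast j) he00))
        exact ⟨u, hu1, hu2, hu3⟩) S a
    refine ⟨t, ht1, ?_, ?_⟩
    · rw [hcalls]
      have h4 := AA_le _ _ _ G T S a
      have h5 : AA (fun t k x => (ModelR.evo W U s₀).mag t k x) T S a / b ^ 2 ≤ k0 := by
        rw [hk0]
        gcongr
      calc Ex S a t.cost ≤ _ := ht2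
        _ ≤ n0 * k0 + k0 := by linarith
        _ = (n0 + 1) * k0 := by ring
    · rw [hcalls]
      refine ht3.trans (le_of_eq ?_)
      ring

end Pool.Agent.W920.HQ
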