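import Pool.Agent.W920.HQ.T_OSSS
import Pool.Agent.W920.HQ.T_FIXL
import Pool.Agent.W920.HQ.T_COMP
import Pool.Agent.W920.HQ.T_FLIP
import Pool.Agent.W920.HQ.T_SIM
import Pool.Agent.W920.HQ.T_FIN1
import Pool.Agent.W920.HQ.T_FIN2

set_option autoImplicit false

namespace Pool.Agent.W920.HQ

open Finset Pool.Agent.H572R2

theorem sim : S_sim := t_sim t_comp t_flip

theorem fin1 : S_fin1 := t_fin1 t_fixl sim

theorem fin2 : S_fin2 := t_fin2 t_osss sim

theorem var_eq {N : ℕ} (f : (Fin N → Bool) → ℝ) :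
    EE (fun x => (f x - EE f) ^ 2)
      = (∑ x : Fin N → Bool, f x ^ 2) / 2 ^ N - ((∑ x : Fin N → Bool, f x) / 2 ^ N) ^ 2 := by
  unfold EE
  have h2 : (2 : ℝ) ^ N ≠ 0 := by positivity
  set A := ∑ x : Fin N → Bool, f x with hA
  have h : ∑ x : Fin N → Bool, (f x - A / 2 ^ N) ^ 2
      = (∑ x : Fin N → Bool, f x ^ 2) - 2 * (A / 2 ^ N) * A + 2 ^ N * (A / 2 ^ N) ^ 2 := by
    have e : ∀ x, (f x - A / 2 ^ N) ^ 2
        = f x ^ 2 - 2 * (A / 2 ^ N) * f x + (A / 2 ^ N) ^ 2 := fun x => by ring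
    rw [Finset.sum_congr rfl fun x _ => e x, Finset.sum_add_distrib, Finset.sum_sub_distrib,
      ← Finset.mul_sum, Finset.sum_const, Finset.card_univ, Fintype.card_fun, Fintype.card_bool,
      Fintype.card_fin, nsmul_eq_mul]
    push_cast
    ring
  rw [h]
  field_simp
  ring

end Pool.Agent.W920.HQ
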