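import Pool.Agent.W920.HQ.Defs

set_option autoImplicit false

namespace Pool.Agent.W920.HQ

open Finset Matrix Pool.Agent.H572R2

/-- Randomised decision trees with real values at the leaves. -/
inductive RT (N c : ℕ) : Type
  | leaf (v : ℝ) : RT N c
  | query (i : Fin N) (t : Bool → RT N c) : RT N c
  | flip (w : Fin c → ℝ) (t : Fin c → RT N c) : RT N c

namespace RT

variable {N c : ℕ}

/-- expected value on the input `x` -/
noncomputable def ev : RT N c → (Fin N → Bool) → ℝ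
  | leaf v, _ => v
  | query i t, x => ev (t (x i)) x
  | flip w t, x => ∑ j, w j * ev (t j) x

/-- expected number of queries on the input `x` -/
noncomputable def cost : RT N c → (Fin N → Bool) → ℝ
  | leaf _, _ => 0
  | query i t, x => 1 + cost (t (x i)) x
  | flip w t, x => ∑ j, w j * cost (t j) x

/-- values in `[0,1]`, probabilities at the random nodes -/
def ok : RT N c → Prop
  | leaf v => 0 ≤ v ∧ v ≤ 1
  | query _ t => ∀ b, ok (t b)
  | flip w t => (∀ j, 0 ≤ w j) ∧ ∑ j, w j = 1 ∧ ∀ j, ok (t j)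

end RT

/-- (OSSS) Two-function OSSS inequality for randomised decision trees. -/
def S_osss : Prop := ∀ (N c : ℕ) (f : (Fin N → Bool) → ℝ) (lam : ℝ),
  (∀ i, EE (fun x => |f x - f (flp i x)|) ≤ 2 * lam) → 0 ≤ lam →
  ∀ (t : RT N c), t.ok → ∀ (S : Finset (Fin N)) (a : Fin N → Bool),
    |EE (fun x => EA S f x * t.ev (mix S a x)) - EE f * EE (fun x => t.ev (mix S a x))|
      ≤ lam * EE (fun x => t.cost (mix S a x))

/-- (FIXL) Bit fixing for randomised decision trees. -/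
def S_fixl : Prop := ∀ (N c : ℕ) (f : (Fin N → Bool) → ℝ) (mu del l : ℝ), 0 ≤ del → 0 ≤ l →
  (∀ (S : Finset (Fin N)) (a : Fin N → Bool), Ex S a f - mu ≤ del + l * S.card) →
  ∀ (t : RT N c), t.ok → ∀ (S : Finset (Fin N)) (a : Fin N → Bool),
    Ex S a (fun x => (f x - mu) * t.ev x) ≤ del + l * (S.card + Ex S a t.cost)

/-- (COMP) Querying the heavy positions first. -/
def S_comp : Prop := ∀ (N c r : ℕ) (m : ℕ → Fin N → (Fin N → Bool) → ℝ),
  (∀ t k x, 0 ≤ m t k x) →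
  ∀ (F : (Fin N → Bool) → ℝ) (τ kap eta : ℝ), 0 < τ → 0 ≤ kap →
  (∀ (S : Finset (Fin N)) (a : Fin N → Bool), (∀ t < r, ∀ k ∈ Sᶜ, Ex S a (m t k) ≤ τ) →
    ∃ t : RT N c, t.ok ∧ Ex S a t.cost ≤ kap ∧ Ex S a (fun x => |F x - t.ev x|) ≤ eta) →
  ∀ (S : Finset (Fin N)) (a : Fin N → Bool),
    ∃ t : RT N c, t.ok ∧ Ex S a t.cost ≤ kap + AA m r S a / τ ∧
      Ex S a (fun x => |F x - t.ev x|) ≤ eta

/-- (FLIP) One call at a light node: `P j` are the outcome probabilities, `p j` the probabilities of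
acceptance afterwards, `t j` the trees which approximate them. -/
def S_flip : Prop := ∀ (N c : ℕ) (S : Finset (Fin N)) (a : Fin N → Bool)
  (P p : Fin c → (Fin N → Bool) → ℝ) (t : Fin c → RT N c) (eps kap eta : ℝ),
  0 ≤ eps → (∀ j x, 0 ≤ P j x) → (∀ x, ∑ j, P j x = 1) → (∀ j x, 0 ≤ p j x) → (∀ j x, p j x ≤ 1) →
  (∀ j, Ex S a (fun x => (P j x) ^ 2) - (Ex S a (P j)) ^ 2 ≤ eps ^ 2) →
  (∀ j, (t j).ok) → (∀ j, Ex S a (t j).cost ≤ kap) →
  (∀ j, Ex S a (fun x => |p j x - (t j).ev x|) ≤ eta) →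
  ∃ u : RT N c, u.ok ∧ Ex S a u.cost ≤ kap ∧
    Ex S a (fun x => |(∑ j, P j x * p j x) - u.ev x|) ≤ c * eps + eta

/-- (SIM) Simulation of a program by a randomised decision tree. -/
def S_sim : Prop := ∀ (N T q r c : ℕ), 1 ≤ T → 1 ≤ q → 1 ≤ r → ∀ b : ℝ, 0 < b → b ≤ 1 →
  ∀ (P : Prog N T q r c) (S : Finset (Fin N)) (a : Fin N → Bool),
    ∃ t : RT N c, t.ok ∧ Ex S a t.cost ≤ P.calls * (T * q / b ^ 2) ∧
      Ex S a (fun x => |P.prob x - t.ev x|) ≤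
        P.calls * (c * Real.sqrt (144 * r * T ^ 2 * q ^ 2 * (320 * r ^ 4 * T ^ 2 * q) ^ r * b))

/-- (FIN1) the final bit-fixing statement in terms of `EE` and `Ex`. -/
def S_fin1 : Prop := ∀ (N T q r c L : ℕ), 1 ≤ T → 1 ≤ q → 1 ≤ r → 1 ≤ c → 1 ≤ L →
  ∀ (P : Prog N T q r c), P.calls ≤ L → ∀ V : ℝ, 0 < V →
    V = EE (fun x => (P.prob x - EE (fun x => P.prob x)) ^ 2) →
    ∃ (S : Finset (Fin N)) (a : Fin N → Bool),
      (S.card : ℝ) ≤ 21233664 * L ^ 5 * c ^ 4 * r ^ 2 * (T * q) ^ 5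
        * (320 * r ^ 4 * T ^ 2 * q) ^ (2 * r) / V ^ 5 ∧
      V / 4 ≤ Ex S a (fun x => P.prob x) - EE (fun x => P.prob x)

/-- (FIN2) the final influence statement in terms of `EE`. -/
def S_fin2 : Prop := ∀ (N T q r c L : ℕ), 1 ≤ T → 1 ≤ q → 1 ≤ r → 1 ≤ c → 1 ≤ L →
  ∀ (P : Prog N T q r c), P.calls ≤ L → ∀ V : ℝ, 0 < V →
    V = EE (fun x => (P.prob x - EE (fun x => P.prob x)) ^ 2) →
    ∃ i : Fin N,
      (V ^ 5 / (7077888 * L ^ 5 * c ^ 4 * r ^ 2 * (T * q) ^ 5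
        * (320 * r ^ 4 * T ^ 2 * q) ^ (2 * r))) ^ 2
        ≤ EE (fun x => ((P.prob x - P.prob (flp i x)) / 2) ^ 2)

end Pool.Agent.W920.HQ
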