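import Pool.Agent.H572R2.ModelR

/-!
# Hybrid programs: adaptive classical control of quantum subroutines with parallel queries

A subroutine holds basis states `((i_1, ..., i_q), w)`, each `i_j` a position of the oracle string or
`none`; it applies `T` layers of `q` parallel phase queries (in layer `k` only the positions in `W k`
are active, and every position is active in at most `r` layers), interleaved with arbitrary
unitaries, and ends with a measurement with `c` outcomes.  A program adaptively calls subroutines,
each of which is chosen according to the outcomes of the earlier ones.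
-/

set_option autoImplicit false

namespace Pool.Agent.W920.HQ

open Finset Matrix

/-- Basis states of a subroutine: `q` query positions (or null queries) and a workspace value. -/
abbrev Bas (N q m : ℕ) : Type := (Fin q → Option (Fin N)) × Fin m

/-- The amplitude of the basis state `s` at the end of the subroutine on the oracle string `x`. -/
noncomputable def amp {N T q m : ℕ} (W : Fin T → Finset (Fin N))
    (U : Fin (T + 1) → Matrix.unitaryGroup (Bas N q m) ℂ) (s₀ : Bas N q m)
    (x : Fin N → Bool) (s : Bas N q m) : ℂ :=
  (((List.ofFn (fun k : Fin T =>
      (U k.succ).1 *
        Matrix.diagonal (fun b : Bas N q m =>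
          ∏ j : Fin q, Option.elim (b.1 j) (1 : ℂ)
            (fun i => if i ∈ W k ∧ x i then -1 else 1)))).reverse.prod
      * (U 0).1) s s₀)

/-- Hybrid programs. -/
inductive Prog (N T q r c : ℕ) : Type
  | halt (b : Bool) : Prog N T q r c
  | call (m : ℕ) (W : Fin T → Finset (Fin N))
      (hW : ∀ i : Fin N, (Finset.univ.filter (fun k : Fin T => i ∈ W k)).card ≤ r)
      (U : Fin (T + 1) → Matrix.unitaryGroup (Bas N q m) ℂ) (s₀ : Bas N q m)
      (out : Bas N q m → Fin c) (next : Fin c → Prog N T q r c) : Prog N T q r c

namespace Prog

variable {N T q r c : ℕ}

/-- The probability of the output `true` on the oracle string `x`. -/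
noncomputable def prob (x : Fin N → Bool) : Prog N T q r c → ℝ
  | halt b => if b then 1 else 0
  | call _ W _ U s₀ out next =>
      ∑ j : Fin c, (∑ s ∈ Finset.univ.filter (fun s => out s = j), ‖amp W U s₀ x s‖ ^ 2)
        * prob x (next j)

/-- The largest number of calls along a run. -/
def calls : Prog N T q r c → ℕ
  | halt _ => 0
  | call _ _ _ _ _ _ next => Finset.univ.sup (fun j => calls (next j)) + 1

end Prog

end Pool.Agent.W920.HQ
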