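import Pool.Agent.W920.HQ.Stm

/-!
# The two-function OSSS inequality for randomised decision trees
-/

set_option autoImplicit false

namespace Pool.Agent.W920.HQ

open Finset Pool.Agent.H572R2

namespace TOSSS

variable {N c : ℕ}

theorem ev_mem (t : RT N c) (h : t.ok) (x : Fin N → Bool) : 0 ≤ t.ev x ∧ t.ev x ≤ 1 := by
  induction t with
  | leaf v => exact h
  | query i t ih => exact ih (x i) (h (x i))
  | flip w t ih =>
    obtain ⟨hw0, hw1, ht⟩ := h
    constructor
    · exact Finset.sum_nonneg (fun j _ => mul_nonneg (hw0 j) (ih j (ht j)).1)
    · rw [← hw1]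
      exact Finset.sum_le_sum (fun j _ => mul_le_of_le_one_right (hw0 j) (ih j (ht j)).2)

end TOSSS

open TOSSS

theorem t_osss : S_osss := by
  classical
  intro N c f lam hinf hlam t
  induction t with
  | leaf v =>
    intro _ S a
    simp only [RT.ev, RT.cost]
    have h2 : EE (fun x => EA S f x * v) = EE f * v := by
      have e1 : EE (fun x => EA S f x * v) = EE (fun x => v * EA S f x) :=
        EE_congr (fun x => mul_comm _ _)
      rw [e1, EE_mul, EE_EA]
      ring
    rw [h2, EE_const, EE_const, sub_self, abs_zero, mul_zero]
  | query i t ih =>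
    intro hok S a
    by_cases hi : i ∈ S
    · have hm : ∀ x, mix S a x i = a i := fun x => by simp [mix, hi]
      have h1 : ∀ x, (RT.query i t).ev (mix S a x) = (t (a i)).ev (mix S a x) := by
        intro x
        show (t (mix S a x i)).ev (mix S a x) = _
        rw [hm]
      have h2 : ∀ x, (RT.query i t).cost (mix S a x) = 1 + (t (a i)).cost (mix S a x) := by
        intro x
        show 1 + (t (mix S a x i)).cost (mix S a x) = _
        rw [hm]
      have e1 : EE (fun x => EA S f x * (RT.query i t).ev (mix S a x)) =
          EE (fun x => EA S f x * (t (a i)).ev (mix S a x)) := EE_congr (fun x => by rw [h1])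
      have e2 : EE (fun x => (RT.query i t).ev (mix S a x)) =
          EE (fun x => (t (a i)).ev (mix S a x)) := EE_congr h1
      have e3 : EE (fun x => (RT.query i t).cost (mix S a x)) =
          1 + EE (fun x => (t (a i)).cost (mix S a x)) := by
        rw [EE_congr h2, EE_add, EE_const]
      have e4 := ih (a i) (hok (a i)) S a
      rw [e1, e2, e3]
      linarith
    · have hiins : i ∈ insert i S := Finset.mem_insert_self i S
      have hmix : ∀ c (x : Fin N → Bool), x i = c → mix S a x
          = mix (insert i S) (Function.update a i c) x := by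
        intro c x hx
        funext k
        by_cases hk : k = i
        · subst hk; simp [mix, hi, hx]
        · simp [mix, hk]
      have hmi : ∀ x : Fin N → Bool, mix S a x i = x i := fun x => by simp [mix, hi]
      obtain ⟨g1, hg1⟩ : ∃ g1 : (Fin N → Bool) → ℝ, ∀ x, g1 x =
        (t true).ev (mix (insert i S) (Function.update a i true) x) := ⟨_, fun x => rfl⟩
      obtain ⟨g0, hg0⟩ : ∃ g0 : (Fin N → Bool) → ℝ, ∀ x, g0 x =
        (t false).ev (mix (insert i S) (Function.update a i false) x) := ⟨_, fun x => rfl⟩
      obtain ⟨c1, hc1⟩ : ∃ c1 : (Fin N → Bool) → ℝ, ∀ x, c1 x =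
        (t true).cost (mix (insert i S) (Function.update a i true) x) := ⟨_, fun x => rfl⟩
      obtain ⟨c0, hc0⟩ : ∃ c0 : (Fin N → Bool) → ℝ, ∀ x, c0 x =
        (t false).cost (mix (insert i S) (Function.update a i false) x) := ⟨_, fun x => rfl⟩
      have hev : ∀ x, (RT.query i t).ev (mix S a x) = if x i then g1 x else g0 x := by
        intro x
        show (t (mix S a x i)).ev (mix S a x) = _
        rw [hmi]
        cases hx : x i
        · simp only [Bool.false_eq_true, if_false]
          rw [hg0, hmix false x hx]
        · simp only [if_true]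
          rw [hg1, hmix true x hx]
      have hco : ∀ x, (RT.query i t).cost (mix S a x) = 1 + if x i then c1 x else c0 x := by
        intro x
        show 1 + (t (mix S a x i)).cost (mix S a x) = _
        rw [hmi]
        cases hx : x i
        · simp only [Bool.false_eq_true, if_false]
          rw [hc0, hmix false x hx]
        · simp only [if_true]
          rw [hc1, hmix true x hx]
      have g1inv : ∀ x, g1 (flp i x) = g1 x := fun x => by rw [hg1, hg1, mix_flp_mem hiins]
      have g0inv : ∀ x, g0 (flp i x) = g0 x := fun x => by rw [hg0, hg0, mix_flp_mem hiins]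
      have c1inv : ∀ x, c1 (flp i x) = c1 x := fun x => by rw [hc1, hc1, mix_flp_mem hiins]
      have c0inv : ∀ x, c0 (flp i x) = c0 x := fun x => by rw [hc0, hc0, mix_flp_mem hiins]
      have hI1 := ih true (hok true) (insert i S) (Function.update a i true)
      have hI0 := ih false (hok false) (insert i S) (Function.update a i false)
      simp only [← hg1, ← hc1] at hI1
      simp only [← hg0, ← hc0] at hI0
      set P := EA (insert i S) f with hP
      have hPinv : ∀ x, P (flp i x) = P x := fun x => EA_flp_mem hiins f x
      set g : (Fin N → Bool) → ℝ := fun x => if x i then g1 x else g0 x with hg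
      have e0 : EE (fun x => EA S f x * (RT.query i t).ev (mix S a x)) =
          EE (fun x => EA S f x * g x) := EE_congr (fun x => by rw [hev])
      have e0' : EE (fun x => (RT.query i t).ev (mix S a x)) = EE g := EE_congr hev
      have e1 : EE (fun x => EA S f x * g x) = EE (fun x => P x * g x)
          + EE (fun x => (EA S f x - P x) * g x) := by
        rw [← EE_add]; apply EE_congr; intro x; ring
      have e2 : EE (fun x => P x * g x)
          = (EE (fun x => P x * g1 x) + EE (fun x => P x * g0 x)) / 2 := by
        rw [← EE_ite i (fun x => P x * g1 x) (fun x => P x * g0 x)]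
        · apply EE_congr; intro x
          simp only [hg]
          split_ifs <;> rfl
        · intro x
          show P (flp i x) * g1 (flp i x) = P x * g1 x
          rw [hPinv, g1inv]
        · intro x
          show P (flp i x) * g0 (flp i x) = P x * g0 x
          rw [hPinv, g0inv]
      have e3 : EE g = (EE g1 + EE g0) / 2 := EE_ite i g1 g0 g1inv g0inv
      have e3' : EE (fun x => (RT.query i t).cost (mix S a x)) = 1 + (EE c1 + EE c0) / 2 := by
        rw [EE_congr hco, EE_add, EE_const, EE_ite i c1 c0 c1inv c0inv]
      have hgb : ∀ x, 0 ≤ g x ∧ g x ≤ 1 := by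
        intro x
        have h1 := ev_mem (RT.query i t) hok (mix S a x)
        rw [hev] at h1
        exact h1
      have e4 : |EE (fun x => (EA S f x - P x) * g x)| ≤ lam := by
        refine (EE_abs_le _).trans ?_
        have f1 : ∀ x, |(EA S f x - P x) * g x| ≤ (1 / 2) * EA S (fun y => |f y - f (flp i y)|) x := by
          intro x
          have f2 : EA S f x - P x = (1 / 2) * EA S (fun y => f y - f (flp i y)) x := by
            rw [hP, EA_insert hi, EA_flp_not_mem hi, EA_sub]; ring
          have f3 : |g x| ≤ 1 := by
            rw [abs_of_nonneg (hgb x).1]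
            exact (hgb x).2
          rw [abs_mul, f2, abs_mul]
          have f4 := EA_abs_le S (fun y => f y - f (flp i y)) x
          have f5 : |(1 / 2 : ℝ)| = 1 / 2 := by norm_num
          rw [f5]
          calc 1 / 2 * |EA S (fun y => f y - f (flp i y)) x| * |g x|
              ≤ 1 / 2 * EA S (fun y => |f y - f (flp i y)|) x * 1 := by
                have : 0 ≤ EA S (fun y => |f y - f (flp i y)|) x :=
                  EA_nonneg S (fun y => abs_nonneg _) x
                gcongr
            _ = _ := by ring
        refine (EE_mono f1).trans ?_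
        rw [EE_mul, EE_EA]
        have := hinf i
        linarith
      rw [e0, e0', e1, e2, e3, e3']
      have e5 : (EE (fun x => P x * g1 x) + EE (fun x => P x * g0 x)) / 2
          + EE (fun x => (EA S f x - P x) * g x) - EE f * ((EE g1 + EE g0) / 2)
          = ((EE (fun x => P x * g1 x) - EE f * EE g1)
            + (EE (fun x => P x * g0 x) - EE f * EE g0)) / 2
            + EE (fun x => (EA S f x - P x) * g x) := by ring
      rw [e5]
      have e6 : |((EE (fun x => P x * g1 x) - EE f * EE g1)
            + (EE (fun x => P x * g0 x) - EE f * EE g0)) / 2|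
          ≤ lam * ((EE c1 + EE c0) / 2) := by
        rw [abs_div]
        have : |(2 : ℝ)| = 2 := by norm_num
        rw [this]
        have f1 := abs_add_le (EE (fun x => P x * g1 x) - EE f * EE g1)
          (EE (fun x => P x * g0 x) - EE f * EE g0)
        have f2 : |EE (fun x => P x * g1 x) - EE f * EE g1| ≤ lam * EE c1 := hI1
        have f3 : |EE (fun x => P x * g0 x) - EE f * EE g0| ≤ lam * EE c0 := hI0
        linarith
      have e8 := abs_add_le (((EE (fun x => P x * g1 x) - EE f * EE g1)
            + (EE (fun x => P x * g0 x) - EE f * EE g0)) / 2)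
            (EE (fun x => (EA S f x - P x) * g x))
      linarith
  | flip w t ih =>
    intro hok S a
    obtain ⟨hw0, hw1, ht⟩ := hok
    have e1 : EE (fun x => EA S f x * (RT.flip w t).ev (mix S a x)) =
        ∑ j, w j * EE (fun x => EA S f x * (t j).ev (mix S a x)) := by
      have h1 : EE (fun x => EA S f x * (RT.flip w t).ev (mix S a x)) =
          EE (fun x => ∑ j, w j * (EA S f x * (t j).ev (mix S a x))) := by
        apply EE_congr
        intro x
        show EA S f x * ∑ j, w j * (t j).ev (mix S a x) = _
        rw [Finset.mul_sum]
        exact Finset.sum_congr rfl (fun j _ => by ring)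
      rw [h1, EE_sum univ (fun j x => w j * (EA S f x * (t j).ev (mix S a x)))]
      exact Finset.sum_congr rfl (fun j _ => EE_mul _ _)
    have e2 : EE (fun x => (RT.flip w t).ev (mix S a x)) =
        ∑ j, w j * EE (fun x => (t j).ev (mix S a x)) := by
      have h1 : EE (fun x => (RT.flip w t).ev (mix S a x)) =
          EE (fun x => ∑ j, w j * (t j).ev (mix S a x)) := rfl
      rw [h1, EE_sum univ (fun j x => w j * (t j).ev (mix S a x))]
      exact Finset.sum_congr rfl (fun j _ => EE_mul _ _)
    have e3 : EE (fun x => (RT.flip w t).cost (mix S a x)) =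
        ∑ j, w j * EE (fun x => (t j).cost (mix S a x)) := by
      have h1 : EE (fun x => (RT.flip w t).cost (mix S a x)) =
          EE (fun x => ∑ j, w j * (t j).cost (mix S a x)) := rfl
      rw [h1, EE_sum univ (fun j x => w j * (t j).cost (mix S a x))]
      exact Finset.sum_congr rfl (fun j _ => EE_mul _ _)
    rw [e1, e2, e3, Finset.mul_sum, Finset.mul_sum, ← Finset.sum_sub_distrib]
    refine (Finset.abs_sum_le_sum_abs _ _).trans (Finset.sum_le_sum (fun j _ => ?_))
    have h1 := ih j (ht j) S a
    have h2 := mul_le_mul_of_nonneg_left h1 (hw0 j)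
    have h3 : w j * EE (fun x => EA S f x * (t j).ev (mix S a x)) -
        EE f * (w j * EE (fun x => (t j).ev (mix S a x))) =
        w j * (EE (fun x => EA S f x * (t j).ev (mix S a x)) -
          EE f * EE (fun x => (t j).ev (mix S a x))) := by ring
    rw [h3, abs_mul, abs_of_nonneg (hw0 j)]
    linarith

end Pool.Agent.W920.HQ
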